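import Mathlib
import Pool.Agent.U309.ZF.Stm3
import Pool.Agent.U891.ZF.CNT

/-!
# Project ZF3 (helper309), package CNT3 (helper446)

Adapted from `Pool/Agent/U891/ZF/CNT.lean` (helper891): a pair of homomorphisms `𝓞 K₁ → ℤ/p`,
`𝓞 K₂ → ℤ/p` gives a homomorphism of `𝓞 K₁ ⊗ 𝓞 K₂`, which extends to `𝓞 L` if `p` does not divide the
index.
-/

set_option autoImplicit false

open NumberField IsDedekindDomain
open scoped TensorProduct

namespace Pool.Agent.U446.ZF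

open Pool.Agent.U309.ZF

section tensor

variable (K₁ K₂ : Type) [Field K₁] [NumberField K₁] [Field K₂] [NumberField K₂]

/-- `𝓞 K₁ ⊗ 𝓞 K₂ → K₁ ⊗ K₂` -/
noncomputable def theta : (𝓞 K₁ ⊗[ℤ] 𝓞 K₂) →ₐ[ℤ] (K₁ ⊗[ℚ] K₂) :=
  Algebra.TensorProduct.lift
    (((Algebra.TensorProduct.includeLeft : K₁ →ₐ[ℚ] K₁ ⊗[ℚ] K₂).restrictScalars ℤ).comp
      (IsScalarTower.toAlgHom ℤ (𝓞 K₁) K₁))
    (((Algebra.TensorProduct.includeRight : K₂ →ₐ[ℚ] K₁ ⊗[ℚ] K₂).restrictScalars ℤ).comp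
      (IsScalarTower.toAlgHom ℤ (𝓞 K₂) K₂))
    (fun _ _ => Commute.all _ _)

lemma theta_tmul (x : 𝓞 K₁) (y : 𝓞 K₂) :
    theta K₁ K₂ (x ⊗ₜ[ℤ] y) = (x : K₁) ⊗ₜ[ℚ] (y : K₂) := by
  unfold theta
  rw [Algebra.TensorProduct.lift_tmul]
  show ((x : K₁) ⊗ₜ[ℚ] (1 : K₂)) * ((1 : K₁) ⊗ₜ[ℚ] (y : K₂)) = _
  rw [Algebra.TensorProduct.tmul_mul_tmul, mul_one, one_mul]

lemma theta_injective : Function.Injective (theta K₁ K₂) := by
  rw [injective_iff_map_eq_zero]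
  intro z hz
  let b₁ := RingOfIntegers.basis K₁
  let b₂ := RingOfIntegers.basis K₂
  let B := b₁.tensorProduct b₂
  let BK := (integralBasis K₁).tensorProduct (integralBasis K₂)
  have h1 : ∀ i, theta K₁ K₂ (B i) = BK i := by
    rintro ⟨i, j⟩
    show theta K₁ K₂ (b₁.tensorProduct b₂ (i, j)) =
      (integralBasis K₁).tensorProduct (integralBasis K₂) (i, j)
    rw [Module.Basis.tensorProduct_apply, Module.Basis.tensorProduct_apply, theta_tmul]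
    rw [integralBasis_apply, integralBasis_apply]
  have h2 : LinearIndependent ℤ (fun i => BK i) :=
    BK.linearIndependent.restrict_scalars (by
      intro r s h
      simpa using h)
  rw [Fintype.linearIndependent_iff] at h2
  have h3 : ∑ i, B.repr z i • BK i = 0 := by
    have h4 : theta K₁ K₂ (∑ i, B.repr z i • B i) = 0 := by rw [B.sum_repr, hz]
    rw [map_sum] at h4
    rw [← h4]
    exact Finset.sum_congr rfl fun i _ => by rw [map_zsmul, h1]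
  have h5 := h2 _ h3
  rw [← B.sum_repr z]
  exact Finset.sum_eq_zero fun i _ => by rw [h5 i, zero_smul]

end tensor

section extend

variable {K₁ K₂ L : Type} [Field K₁] [NumberField K₁] [Field K₂] [NumberField K₂] [Field L]
  [NumberField L] (e : (K₁ ⊗[ℚ] K₂) ≃ₐ[ℚ] L) (m : ℤ)

/-- the index hypothesis -/
def Idx : Prop := ∀ z : 𝓞 L, ∃ w : 𝓞 K₁ ⊗[ℤ] 𝓞 K₂, e (theta K₁ K₂ w) = m • (z : L)

lemma idx_of (h : ∀ x : 𝓞 L, ∃ l : List (𝓞 K₁ × 𝓞 K₂),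
        e ((l.map fun u => (u.1 : K₁) ⊗ₜ[ℚ] (u.2 : K₂)).sum) = (m : ℤ) • (x : L)) : Idx e m := by
  intro x
  obtain ⟨l, hl⟩ := h x
  refine ⟨(l.map fun u => u.1 ⊗ₜ[ℤ] u.2).sum, ?_⟩
  rw [map_list_sum, List.map_map]
  have h1 : (theta K₁ K₂ ∘ fun u : 𝓞 K₁ × 𝓞 K₂ => u.1 ⊗ₜ[ℤ] u.2) =
      fun u => (u.1 : K₁) ⊗ₜ[ℚ] (u.2 : K₂) := by
    funext u
    exact theta_tmul K₁ K₂ _ _
  rw [h1, hl]

variable {e m}

lemma eth_injective : Function.Injective (fun w : 𝓞 K₁ ⊗[ℤ] 𝓞 K₂ => e (theta K₁ K₂ w)) :=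
  e.injective.comp (theta_injective K₁ K₂)

variable (p : ℕ) [hp : Fact p.Prime]

/-- the homomorphism `x ⊗ y ↦ φ₁(x) φ₂(y)` -/
noncomputable def psi0 (φ₁ : 𝓞 K₁ →+* ZMod p) (φ₂ : 𝓞 K₂ →+* ZMod p) :
    (𝓞 K₁ ⊗[ℤ] 𝓞 K₂) →ₐ[ℤ] ZMod p :=
  Algebra.TensorProduct.lift φ₁.toIntAlgHom φ₂.toIntAlgHom (fun _ _ => Commute.all _ _)

lemma psi0_tmul (φ₁ : 𝓞 K₁ →+* ZMod p) (φ₂ : 𝓞 K₂ →+* ZMod p) (x : 𝓞 K₁) (y : 𝓞 K₂) :
    psi0 p φ₁ φ₂ (x ⊗ₜ[ℤ] y) = φ₁ x * φ₂ y := by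
  unfold psi0
  rw [Algebra.TensorProduct.lift_tmul]
  rfl

lemma exists_psi (hI : Idx e m) (hm : (m : ZMod p) ≠ 0) (φ₁ : 𝓞 K₁ →+* ZMod p)
    (φ₂ : 𝓞 K₂ →+* ZMod p) :
    ∃ ψ : 𝓞 L →+* ZMod p, ∀ (z : 𝓞 L) (w : 𝓞 K₁ ⊗[ℤ] 𝓞 K₂),
      e (theta K₁ K₂ w) = m • (z : L) → (m : ZMod p) * ψ z = psi0 p φ₁ φ₂ w := by
  choose W hW using hI
  have key : ∀ (z : 𝓞 L) (w : 𝓞 K₁ ⊗[ℤ] 𝓞 K₂), e (theta K₁ K₂ w) = m • (z : L) → w = W z :=
    fun z w h => eth_injective (e := e) (h.trans (hW z).symm)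
  let f : 𝓞 L → ZMod p := fun z => (m : ZMod p)⁻¹ * psi0 p φ₁ φ₂ (W z)
  refine ⟨{ toFun := f, map_one' := ?_, map_mul' := ?_, map_zero' := ?_, map_add' := ?_ }, ?_⟩
  · have h1 : (m : 𝓞 K₁ ⊗[ℤ] 𝓞 K₂) = W 1 := by
      apply key
      rw [map_intCast, map_intCast, show ((1 : 𝓞 L) : L) = 1 from rfl, zsmul_one]
    show (m : ZMod p)⁻¹ * psi0 p φ₁ φ₂ (W 1) = 1
    rw [← h1, map_intCast, inv_mul_cancel₀ hm]
  · intro z z'
    have h1 : W z * W z' = m • W (z * z') := by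
      apply eth_injective (e := e)
      show e (theta K₁ K₂ (W z * W z')) = e (theta K₁ K₂ (m • W (z * z')))
      rw [map_mul, map_mul, hW, hW, map_zsmul, map_zsmul, hW,
        show ((z * z' : 𝓞 L) : L) = (z : L) * (z' : L) from rfl, smul_mul_smul_comm, smul_smul]
    show (m : ZMod p)⁻¹ * psi0 p φ₁ φ₂ (W (z * z')) =
      ((m : ZMod p)⁻¹ * psi0 p φ₁ φ₂ (W z)) * ((m : ZMod p)⁻¹ * psi0 p φ₁ φ₂ (W z'))
    have h2 : psi0 p φ₁ φ₂ (W z) * psi0 p φ₁ φ₂ (W z') = (m : ZMod p) * psi0 p φ₁ φ₂ (W (z * z')) := by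
      rw [← map_mul, h1, map_zsmul, zsmul_eq_mul]
    calc (m : ZMod p)⁻¹ * psi0 p φ₁ φ₂ (W (z * z'))
        = (m : ZMod p)⁻¹ * (m : ZMod p)⁻¹ * ((m : ZMod p) * psi0 p φ₁ φ₂ (W (z * z'))) := by
          field_simp
      _ = _ := by rw [← h2]; ring
  · have h1 : (0 : 𝓞 K₁ ⊗[ℤ] 𝓞 K₂) = W 0 := by
      apply key
      rw [map_zero, map_zero, show ((0 : 𝓞 L) : L) = 0 from rfl, smul_zero]
    show (m : ZMod p)⁻¹ * psi0 p φ₁ φ₂ (W 0) = 0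
    rw [← h1, map_zero, mul_zero]
  · intro z z'
    have h1 : W z + W z' = W (z + z') := by
      apply key
      rw [map_add, map_add, hW, hW, show ((z + z' : 𝓞 L) : L) = (z : L) + (z' : L) from rfl,
        smul_add]
    show (m : ZMod p)⁻¹ * psi0 p φ₁ φ₂ (W (z + z')) = (m : ZMod p)⁻¹ * psi0 p φ₁ φ₂ (W z) +
      (m : ZMod p)⁻¹ * psi0 p φ₁ φ₂ (W z')
    rw [← h1, map_add, mul_add]
  · intro z w hw
    show (m : ZMod p) * ((m : ZMod p)⁻¹ * psi0 p φ₁ φ₂ (W z)) = _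
    rw [key z w hw, mul_inv_cancel_left₀ hm]

lemma exists_preim (x : 𝓞 K₁ ⊗[ℤ] 𝓞 K₂)
    (hx : ∀ t : K₁ ⊗[ℚ] K₂, t = theta K₁ K₂ x → IsIntegral ℤ t) :
    ∃ z : 𝓞 L, e (theta K₁ K₂ x) = (z : L) := by
  have h1 : IsIntegral ℤ (e (theta K₁ K₂ x)) := (hx _ rfl).map (e.toAlgHom.restrictScalars ℤ)
  exact ⟨⟨_, h1⟩, rfl⟩

lemma integral_left (x : 𝓞 K₁) : IsIntegral ℤ (theta K₁ K₂ (x ⊗ₜ[ℤ] (1 : 𝓞 K₂))) := by
  rw [theta_tmul, show ((1 : 𝓞 K₂) : K₂) = 1 from rfl]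
  exact (RingOfIntegers.isIntegral_coe x).map
    ((Algebra.TensorProduct.includeLeft : K₁ →ₐ[ℚ] K₁ ⊗[ℚ] K₂).restrictScalars ℤ)

lemma integral_right (x : 𝓞 K₂) : IsIntegral ℤ (theta K₁ K₂ ((1 : 𝓞 K₁) ⊗ₜ[ℤ] x)) := by
  rw [theta_tmul, show ((1 : 𝓞 K₁) : K₁) = 1 from rfl]
  exact (RingOfIntegers.isIntegral_coe x).map
    ((Algebra.TensorProduct.includeRight : K₂ →ₐ[ℚ] K₁ ⊗[ℚ] K₂).restrictScalars ℤ)

lemma psi_det (hI : Idx e m) (hm : (m : ZMod p) ≠ 0) :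
    ∃ Ψ : (𝓞 K₁ →+* ZMod p) × (𝓞 K₂ →+* ZMod p) → (𝓞 L →+* ZMod p), Function.Injective Ψ := by
  choose Ψ hΨ using fun φ : (𝓞 K₁ →+* ZMod p) × (𝓞 K₂ →+* ZMod p) => exists_psi p hI hm φ.1 φ.2
  refine ⟨Ψ, ?_⟩
  have h1 : ∀ (φ : (𝓞 K₁ →+* ZMod p) × (𝓞 K₂ →+* ZMod p)) (w : 𝓞 K₁ ⊗[ℤ] 𝓞 K₂) (z : 𝓞 L),
      e (theta K₁ K₂ w) = (z : L) → Ψ φ z = psi0 p φ.1 φ.2 w := by
    intro φ w z h
    have h2 := hΨ φ z (m • w) (by rw [map_zsmul, map_zsmul, h])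
    rw [map_zsmul, zsmul_eq_mul] at h2
    exact mul_left_cancel₀ hm h2
  intro φ φ' h
  apply Prod.ext
  · apply RingHom.ext
    intro x
    obtain ⟨z, hz⟩ := exists_preim (e := e) (x ⊗ₜ[ℤ] (1 : 𝓞 K₂)) (fun t ht => ht ▸ integral_left x)
    have h2 := h1 φ _ z hz
    have h3 := h1 φ' _ z hz
    rw [← h, h2, psi0_tmul, psi0_tmul, map_one, map_one, mul_one, mul_one] at h3
    exact h3
  · apply RingHom.ext
    intro x
    obtain ⟨z, hz⟩ := exists_preim (e := e) ((1 : 𝓞 K₁) ⊗ₜ[ℤ] x) (fun t ht => ht ▸ integral_right x)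
    have h2 := h1 φ _ z hz
    have h3 := h1 φ' _ z hz
    rw [← h, h2, psi0_tmul, psi0_tmul, map_one, map_one, one_mul, one_mul] at h3
    exact h3

end extend

theorem t_CNT3 : Pool.Agent.U309.ZF.S_CNT3 := by
  rintro hIDX K₁ K₂ L _ _ _ _ _ _ ⟨e⟩
  obtain ⟨h1, m, hm, h2, h3⟩ := hIDX K₁ K₂ L e
  have d1 : NumberField.discr K₁ ≠ 0 := NumberField.discr_ne_zero K₁
  have d2 : NumberField.discr K₂ ≠ 0 := NumberField.discr_ne_zero K₂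
  have d3 : NumberField.discr L ≠ 0 := NumberField.discr_ne_zero L
  refine ⟨h1, ?_, ?_⟩
  · have h4 : |NumberField.discr K₁| ^ Module.finrank ℚ K₂ *
        |NumberField.discr K₂| ^ Module.finrank ℚ K₁ = |m| ^ 2 * |NumberField.discr L| := by
      rw [← abs_pow, ← abs_pow, ← abs_mul, h2, abs_mul, abs_pow]
    have a1 : 1 ≤ |m| := Int.one_le_abs hm
    have h5 : |NumberField.discr L| ≤ |NumberField.discr K₁| ^ Module.finrank ℚ K₂ *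
        |NumberField.discr K₂| ^ Module.finrank ℚ K₁ := by
      rw [h4]
      have a4 : 1 ≤ |m| ^ 2 := one_le_pow₀ a1
      exact le_mul_of_one_le_left (abs_nonneg _) a4
    unfold ld
    have h6 : (|(NumberField.discr L : ℝ)|) ≤ |(NumberField.discr K₁ : ℝ)| ^ Module.finrank ℚ K₂ *
        |(NumberField.discr K₂ : ℝ)| ^ Module.finrank ℚ K₁ := by
      exact_mod_cast h5
    have p1 : (0 : ℝ) < |(NumberField.discr K₁ : ℝ)| := by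
      have : (NumberField.discr K₁ : ℝ) ≠ 0 := by exact_mod_cast d1
      positivity
    have p2 : (0 : ℝ) < |(NumberField.discr K₂ : ℝ)| := by
      have : (NumberField.discr K₂ : ℝ) ≠ 0 := by exact_mod_cast d2
      positivity
    have p3 : (0 : ℝ) < |(NumberField.discr L : ℝ)| := by
      have : (NumberField.discr L : ℝ) ≠ 0 := by exact_mod_cast d3
      positivity
    calc Real.log |(NumberField.discr L : ℝ)|
        ≤ Real.log (|(NumberField.discr K₁ : ℝ)| ^ Module.finrank ℚ K₂ *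
            |(NumberField.discr K₂ : ℝ)| ^ Module.finrank ℚ K₁) := Real.log_le_log p3 h6
      _ = Module.finrank ℚ K₂ * Real.log |(NumberField.discr K₁ : ℝ)| +
            Module.finrank ℚ K₁ * Real.log |(NumberField.discr K₂ : ℝ)| := by
          rw [Real.log_mul (pow_ne_zero _ p1.ne') (pow_ne_zero _ p2.ne'), Real.log_pow,
            Real.log_pow]
  · intro p hp hpd1 hpd2
    have : Fact p.Prime := ⟨hp⟩
    have hmp : (m : ZMod p) ≠ 0 := by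
      intro h
      rw [ZMod.intCast_zmod_eq_zero_iff_dvd] at h
      have h4 : (p : ℤ) ∣ NumberField.discr K₁ ^ Module.finrank ℚ K₂ *
          NumberField.discr K₂ ^ Module.finrank ℚ K₁ := by
        rw [h2]
        exact Dvd.dvd.mul_right (dvd_pow h (by norm_num)) _
      have hpp : Prime (p : ℤ) := Nat.prime_iff_prime_int.1 hp
      rcases hpp.dvd_or_dvd h4 with h5 | h5
      · exact hpd1 (hpp.dvd_of_dvd_pow h5)
      · exact hpd2 (hpp.dvd_of_dvd_pow h5)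
    rw [Pool.Agent.U891.ZF.pi1_eq K₁ p, Pool.Agent.U891.ZF.pi1_eq K₂ p,
      Pool.Agent.U891.ZF.pi1_eq L p]
    obtain ⟨Ψ, hΨ⟩ := psi_det (e := e) (m := m) p (idx_of e m h3) hmp
    have h5 := Nat.card_le_card_of_injective _ hΨ
    rw [Nat.card_prod] at h5
    exact h5

end Pool.Agent.U446.ZF
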